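import Mathlib
import Pool.Agent.U332.LQ.Fin

/-! # Unit values of `p`-adic `L`-functions for fixed `p` and growing conductor

For a prime `q` with `p ∤ q (q - 1)` the odd characters `χ` modulo `q` with values in an algebraic
closure of `ℚ_p` have values in the ring `W` of Witt vectors of an algebraic closure of `𝔽_p`, and
`θ = ω χ` is an even character of conductor `p q`. If `L_p(0, θ) = - (1 - χ(p)) B_{1,χ}` is a unit
then the `p`-adic `L`-function of `θ` is a unit of the Iwasawa algebra and `X_θ = 0` (`N = q`).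

Proof. Over the residue field the number of the `χ` with `p ∤ B_{1,χ}` is at least the rank of the
matrix `(2 (a b mod q) - q)`, `1 ≤ a, b < q`, and, up to one, of the matrix of the jumps
`⌊a b / q⌋ - ⌊a (b - 1) / q⌋`. It has a triangular part of size `κ q^(2/3) / log q`: the fraction with
the smallest denominator in an interval `((b-1)/q, b/q]` gives a row, and the denominators which
occur are counted near the fractions with small denominators (this part is common with the theorem on
`L(χ, 0)` for `MP_53226a_nt`). The characters with `χ(p) = 1`, the trivial zeros, are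
`(q - 1) / ord_q(p)` in number, few for almost all `q`. -/

namespace Pool.Agent.Results.MP_c2a07f_nt.UnitValuesFixedPrime

open Finset

/-- The Witt vectors of an algebraic closure of `𝔽_p`. -/
abbrev W (p : ℕ) [Fact p.Prime] : Type := WittVector p (AlgebraicClosure (ZMod p))

/-- `∑_{0 ≤ n < M} n χ(n)`, which is `M B_{1,χ}` for a nontrivial character `χ` modulo `M`. -/
noncomputable def firstMoment {p : ℕ} [Fact p.Prime] {M : ℕ} (χ : DirichletCharacter (W p) M) : W p :=
  ∑ n ∈ range M, (n : W p) * χ (n : ZMod M)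

/-- `L_p(0, ω χ) = - (1 - χ(p)) B_{1,χ}` is a unit of `W`. -/
def UnitValue {p : ℕ} [Fact p.Prime] {M : ℕ} (χ : DirichletCharacter (W p) M) : Prop :=
  ∃ u : (W p)ˣ, -((1 - χ ((p : ℕ) : ZMod M)) * firstMoment χ) = M * u

open Classical in
/-- The number of the odd characters `χ` modulo `q` with values in `W` such that `L_p(0, ω χ)` is
a unit. -/
noncomputable def goodCount (p : ℕ) [Fact p.Prime] (q : ℕ) : ℕ :=
  (univ.filter fun χ : DirichletCharacter (W p) q => χ.Odd ∧ UnitValue χ).card

open Classical in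
/-- There are absolute `κ > 0` and `Q` such that:

1. For all odd primes `p` and all primes `q ≥ Q` with `p ∤ q (q - 1)` the number of the odd `χ` modulo
`q` such that `L_p(0, ω χ)` is a unit is at least `κ q^(2/3) / log q - (q - 1) / ord_q(p)`, where
`ord_q(p)` is the order of `p` modulo `q`.

2. For every odd prime `p` and every `ε > 0` there is `C` such that for all `X` at most
`C X^(2/3 + ε)` primes `q ≤ X` with `p ∤ q - 1` have fewer than `κ q^(2/3) / log q` such `χ`. -/
theorem result : ∃ κ : ℝ, 0 < κ ∧ (∃ Q : ℕ,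
    (∀ (p : ℕ) [Fact p.Prime] (q : ℕ), p ≠ 2 → q.Prime → Q ≤ q → q ≠ p → ¬ p ∣ q - 1 →
      κ * (q : ℝ) ^ ((2 : ℝ) / 3) / Real.log q ≤
        (goodCount p q : ℝ) + ((q : ℝ) - 1) / orderOf ((p : ℕ) : ZMod q))) ∧
    (∀ (p : ℕ) [Fact p.Prime], p ≠ 2 → ∀ ε : ℝ, 0 < ε → ∃ C : ℝ, ∀ X : ℕ,
      (((Icc 1 X).filter fun q : ℕ => q.Prime ∧ ¬ p ∣ q - 1 ∧
        (goodCount p q : ℝ) < κ * (q : ℝ) ^ ((2 : ℝ) / 3) / Real.log q).card : ℝ) ≤
        C * (X : ℝ) ^ (2 / 3 + ε)) := by
  have h : ∀ (p : ℕ) [Fact p.Prime] (q : ℕ), goodCount p q = Pool.Agent.U332.LQ.good p q :=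
    fun _ _ _ => rfl
  simp only [h]
  obtain ⟨κ, hκ, h1, h2⟩ := Pool.Agent.U332.LQ.main
  refine ⟨κ, hκ, h1, ?_⟩
  intro p hp hp2 ε hε
  obtain ⟨C, hC⟩ := h2 p hp2 ε hε
  refine ⟨C, fun X => ?_⟩
  refine le_trans (le_of_eq ?_) (hC X)
  congr

end Pool.Agent.Results.MP_c2a07f_nt.UnitValuesFixedPrime
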