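import Pool.Agent.U449.BV.F
import Pool.Agent.Results.MP_c2a07f_nt.UnitValuesFixedPrime

/-!
# Unit values of `p`-adic `L`-functions: all conductors near the values of polynomials on arbitrary sets

There is an absolute `c > 0` with the following property. Let `p` be an odd prime, `κ ≥ 0` and `2/3 + κ < δ ≤ 1`. Let `f(x, y)` be an
integer polynomial with a monomial which contains both variables, `A`, `B` ARBITRARY finite sets of at least `X ^ δ` integers, and
`g`, `h` ARBITRARY real functions such that `|f(a, b) + g(a) + h(b)| ≤ X` on `A × B`. For all the pairs `(a, b)`, apart from a proportion of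
at most `X ^ (-ρ)`, and for ALL primes `q` with `p ∤ q - 1` and `|q - (f(a, b) + g(a) + h(b))| ≤ X ^ κ` at least `c q ^ (2/3) / log q` of
the odd characters `χ` modulo `q` are such that `L_p(0, ω χ)` is a unit, so that the eigenspace `X_θ`, `θ = ω χ`, of `X ^ +` (for `N = q`)
vanishes. The same holds, with `X = l`, for the least residues of `f(a, b) + g(a) + h(b)` modulo a prime `l`, where `A`, `B` are arbitrary
sets of residues, and more generally for the values `F(a, b)` of all functions of two variables with few coincidences (`Rare`).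

Since `A`, `B`, `g` and `h` are arbitrary, the values have no arithmetic structure, and a value can be taken by very many pairs. So
the number of the exceptional primes (starting theorem) does not give the result directly. Proof: the
inequality of Cauchy and Schwarz; for most pairs `a, a'` the difference `F(a, b) - F(a', b)` is small for few `b`
(`Pool.Agent.U449.BV`).
-/

set_option autoImplicit false

namespace Pool.Agent.Results.MP_c2a07f_nt.MixedPolynomials

open Finset
open Pool.Agent.U449.BV (Rare OnProducts on_products polys residues)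
open Pool.Agent.Results.MP_c2a07f_nt.UnitValuesFixedPrime (goodCount)

/-- For ALL primes `q` with `p ∤ q - 1` and `|q - x| ≤ W` there are at least `c q ^ (2/3) / log q` odd characters `χ` modulo `q` such
that `L_p(0, ω χ)` is a unit (`goodCount p q`). -/
def Near (p : ℕ) [Fact p.Prime] (c W x : ℝ) : Prop :=
  ∀ q : ℕ, (q.Prime ∧ ¬ p ∣ q - 1) → |(q : ℝ) - x| ≤ W → c * (q : ℝ) ^ ((2 : ℝ) / 3) / Real.log q ≤ goodCount p q

/-- **Theorem.** There is an absolute `c > 0` such that: (1) for all odd primes `p` and all `κ ≥ 0` the property `Near`, with windows of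
length `X ^ κ`, holds for almost all values of functions of two variables with few coincidences, on arbitrary finite sets of at least
`X ^ δ` elements, `2/3 + κ < δ ≤ 1` (`OnProducts`). (2) Coincidences are rare for `f(a, b) + g(a) + h(b)`, where `f` is any
integer polynomial with a monomial which contains both variables, and `g` and `h` are arbitrary real functions, on arbitrary
finite sets of integers. (3) The same is true of the least residues of `f(a, b) + g(a) + h(b)` modulo a prime. -/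
theorem result :
    (∃ c : ℝ, 0 < c ∧ ∀ (p : ℕ) [Fact p.Prime], p ≠ 2 → ∀ κ : ℝ, 0 ≤ κ →
      OnProducts (2 / 3 + κ) κ (Near p c)) ∧
    (∀ (d : ℕ) (f : MvPolynomial (Fin 2) ℤ), f.totalDegree ≤ d → (∃ m ∈ f.support, m 0 ≠ 0 ∧ m 1 ≠ 0) →
      ∀ (g h : ℤ → ℝ) (A B : Finset ℤ),
        Rare d A B (fun a b => ((MvPolynomial.eval ![a, b] f : ℤ) : ℝ) + g a + h b)) ∧
    ∀ (p : ℕ) [Fact p.Prime] (d : ℕ) (f : MvPolynomial (Fin 2) (ZMod p)), f.totalDegree ≤ d →
      (∃ m ∈ f.support, m 0 ≠ 0 ∧ m 1 ≠ 0) → ∀ (g h : ZMod p → ZMod p) (A B : Finset (ZMod p)),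
        Rare d A B (fun a b => (((MvPolynomial.eval ![a, b] f + g a + h b).val : ℕ) : ℝ)) := by
  classical
  obtain ⟨c, hc, -, h2⟩ := UnitValuesFixedPrime.result
  refine ⟨⟨c, hc, fun p hp hp2 κ hκ => ?_⟩, polys, residues⟩
  refine on_products (fun q : ℕ => q.Prime ∧ ¬ p ∣ q - 1)
    (fun q : ℕ => c * (q : ℝ) ^ ((2 : ℝ) / 3) / Real.log q ≤ goodCount p q) (fun q => (q : ℝ)) (s := 2 / 3) (κ := κ)
    (by norm_num) hκ (fun ε hε => ?_)
  obtain ⟨C, hC⟩ := h2 p hp2 ε hε
  refine ⟨|C|, fun X hX => ?_⟩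
  have hX0 : 0 < X := by linarith
  have hfin : {q : ℕ | ((q.Prime ∧ ¬ p ∣ q - 1) ∧ ¬ c * (q : ℝ) ^ ((2 : ℝ) / 3) / Real.log q ≤ goodCount p q) ∧
      (q : ℝ) ≤ X}.Finite := by
    apply (Set.finite_Iic ⌊X⌋₊).subset
    rintro q ⟨-, h⟩
    exact Nat.le_floor h
  refine ⟨hfin, ?_⟩
  have h3 : ({q : ℕ | ((q.Prime ∧ ¬ p ∣ q - 1) ∧ ¬ c * (q : ℝ) ^ ((2 : ℝ) / 3) / Real.log q ≤ goodCount p q) ∧
      (q : ℝ) ≤ X}.ncard : ℝ) ≤ (((Icc 1 ⌊X⌋₊).filter fun q : ℕ => q.Prime ∧ ¬ p ∣ q - 1 ∧
        (goodCount p q : ℝ) < c * (q : ℝ) ^ ((2 : ℝ) / 3) / Real.log q).card : ℝ) := by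
    rw [← Set.ncard_coe_finset]
    refine Nat.cast_le.2 (Set.ncard_le_ncard ?_ (Finset.finite_toSet _))
    rintro q ⟨⟨⟨h4, h5⟩, h6⟩, h7⟩
    rw [mem_coe, mem_filter, mem_Icc]
    exact ⟨⟨h4.one_lt.le, Nat.le_floor h7⟩, h4, h5, not_le.1 h6⟩
  have h8 : ((⌊X⌋₊ : ℕ) : ℝ) ^ (2 / 3 + ε) ≤ X ^ (2 / 3 + ε) :=
    Real.rpow_le_rpow (Nat.cast_nonneg _) (Nat.floor_le hX0.le) (by linarith)
  refine h3.trans ((hC ⌊X⌋₊).trans ?_)
  exact (mul_le_mul_of_nonneg_right (le_abs_self C) (by positivity)).trans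
    (mul_le_mul_of_nonneg_left h8 (abs_nonneg C))

end Pool.Agent.Results.MP_c2a07f_nt.MixedPolynomials
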