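import Mathlib
import Pool.Agent.U332.GX.Fin

/-! # Unit values of `p`-adic `L`-functions in the Galois orbits of odd characters

For `p ∤ N φ(N)` the characters of `(ℤ/pN)ˣ` with values in an algebraic closure of `ℚ_p` have
values in the ring `W` of Witt vectors of an algebraic closure of `𝔽_p` (the integers of the
completed maximal unramified extension of `ℚ_p`). The even characters `θ` modulo `p N` are the
`ω ψ` with `ψ` odd modulo `p N`. If `χ` modulo `M` is the primitive character which induces `ψ`, then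
`L_p(0, θ) = - (1 - χ(p)) B_{1,χ}`, and for `θ ≠ 1` the `p`-adic `L`-function of `θ` is a unit of the
Iwasawa algebra if and only if this value is a unit of `W`. Then `X_θ = 0`: it is a quotient of a
module without finite submodules whose characteristic ideal is generated by this function. For
`θ = 1` also `X_θ = 0`, as `ℚ` has class number one. So `X_θ = 0` for all good characters (below).

Proof of part 1: for odd primitive `χ` modulo `M` the half sum `S(χ) = ∑_{n < M/2} χ(n)` is
`(χ(2)⁻¹ - 2) B_{1,χ}` if `M` is odd and `- 2 B_{1,χ}` if `4 ∣ M`. So `p` divides `S(χ^j)` if `χ^j` is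
bad, and the product of the `S(χ^j)` is an integer, not zero, and is estimated over `ℂ` with the
inequality of Pólya and Vinogradov. -/

namespace Pool.Agent.Results.MP_c2a07f_nt.OrbitValues

open Finset

/-- The Witt vectors of an algebraic closure of `𝔽_p`. -/
abbrev W (p : ℕ) [Fact p.Prime] : Type := WittVector p (AlgebraicClosure (ZMod p))

/-- `∑_{0 ≤ n < M} n χ(n)`, which is `M B_{1,χ}` for a nontrivial character `χ` modulo `M`. -/
noncomputable def firstMoment {p : ℕ} [Fact p.Prime] {M : ℕ} (χ : DirichletCharacter (W p) M) : W p :=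
  ∑ n ∈ range M, (n : W p) * χ (n : ZMod M)

/-- `L_p(0, ω χ) = - (1 - χ(p)) B_{1,χ}` is a unit of `W`. -/
def UnitValue {p : ℕ} [Fact p.Prime] {M : ℕ} (χ : DirichletCharacter (W p) M) : Prop :=
  ∃ u : (W p)ˣ, -((1 - χ ((p : ℕ) : ZMod M)) * firstMoment χ) = M * u

/-- `ω χ` is trivial: `a χ(a) ≡ 1` modulo `p` for all `a` prime to the modulus of `χ`. -/
def TrivialTheta {p : ℕ} [Fact p.Prime] {M : ℕ} (χ : DirichletCharacter (W p) M) : Prop :=
  ∀ a : ℕ, a.Coprime M → (p : W p) ∣ a * χ (a : ZMod M) - 1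

/-- For the primitive character `χ` which induces `ψ`, `ω χ` is trivial or `L_p(0, ω χ)` is a unit. -/
def GoodCharacter {p : ℕ} [Fact p.Prime] {L : ℕ} (ψ : DirichletCharacter (W p) L) : Prop :=
  ∃ (M : ℕ) (h : M ∣ L) (χ : DirichletCharacter (W p) M), χ.IsPrimitive ∧
    DirichletCharacter.changeLevel h χ = ψ ∧ (TrivialTheta χ ∨ UnitValue χ)

open Classical in
/-- The number of the `j` modulo the order `d` of `χ`, `j` prime to `d`, such that `ω χ^j` is not trivial
and `L_p(0, ω χ^j)` is not a unit. -/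
noncomputable def badCount {p : ℕ} [Fact p.Prime] {M : ℕ} (χ : DirichletCharacter (W p) M) : ℕ :=
  ((range (orderOf χ)).filter fun j =>
    j.Coprime (orderOf χ) ∧ ¬ TrivialTheta (χ ^ j) ∧ ¬ UnitValue (χ ^ j)).card

open Classical in
/-- The number of the odd characters modulo `L`. -/
noncomputable def oddCount (p : ℕ) [Fact p.Prime] (L : ℕ) : ℕ :=
  (univ.filter fun ψ : DirichletCharacter (W p) L => ψ.Odd).card

open Classical in
/-- The number of the good odd characters modulo `L`. -/
noncomputable def goodCount (p : ℕ) [Fact p.Prime] (L : ℕ) : ℕ :=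
  (univ.filter fun ψ : DirichletCharacter (W p) L => ψ.Odd ∧ GoodCharacter ψ).card

/-- 1. Let `χ` be a primitive odd character modulo `M` with values in `W`, of order `d` prime to `p`, with
`χ(p) ≠ 1`. Let `r` be the number of the `j` modulo `d`, `j` prime to `d`, such that `ω χ^j` is not
trivial and `L_p(0, ω χ^j)` is not a unit. Then `p ^ (2 r) ≤ (M (1 + log M) ^ 2) ^ φ(d)`.

2. Let `η ≥ 0` and `ε > 0`. If `p` is large, then for all `N ≤ p ^ η` with `p ∤ N φ(N)` there are
`φ(p N) / 2` odd characters modulo `p N`, and at least `(1 - η) / 2 - ε` times this number of them are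
good. -/
theorem result :
    (∀ (p : ℕ) [Fact p.Prime] (M : ℕ) (χ : DirichletCharacter (W p) M), M ≠ 0 → χ.IsPrimitive →
      χ.Odd → χ ((p : ℕ) : ZMod M) ≠ 1 → ¬ p ∣ orderOf χ →
      (p : ℝ) ^ (2 * badCount χ) ≤ (M * (1 + Real.log M) ^ 2) ^ (Nat.totient (orderOf χ))) ∧
    (∀ η ε : ℝ, 0 ≤ η → 0 < ε → ∃ P : ℕ, ∀ (p : ℕ) [Fact p.Prime] (N : ℕ), P ≤ p → N ≠ 0 →
      ¬ p ∣ N * Nat.totient N → (N : ℝ) ≤ (p : ℝ) ^ η →
      2 * oddCount p (p * N) = Nat.totient (p * N) ∧
      ((1 - η) / 2 - ε) * (oddCount p (p * N) : ℝ) ≤ (goodCount p (p * N) : ℝ)) := by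
  classical
  constructor
  · intro p _ M χ hM hprim hodd hχp hord
    have hNZ : NeZero M := ⟨hM⟩
    have hM2 : 2 ≤ M := by
      by_contra h
      have h1 : M = 1 := by omega
      subst h1
      have h2 : (-1 : ZMod 1) = 1 := Subsingleton.elim _ _
      unfold DirichletCharacter.Odd at hodd
      rw [h2, map_one] at hodd
      have h3 : (2 : W p) = 0 := by linear_combination hodd
      exact two_ne_zero h3
    exact Pool.Agent.U332.GX.orbit p χ hord (orderOf_pos χ) hprim hodd hχp hM2
  · intro η ε hη hε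
    obtain ⟨P, hP3, hP⟩ := Pool.Agent.U332.GX.asym η ε hη hε
    refine ⟨P, ?_⟩
    intro p hp N hPp hN hpN hNη
    have h1 : ¬ p ∣ N := fun h => hpN (h.mul_right _)
    have h2 : ¬ p ∣ N.totient := fun h => hpN (h.mul_left _)
    have h3 : 3 ≤ p := hP3.trans hPp
    have hNZ : NeZero (p * N) := ⟨Nat.mul_ne_zero hp.out.ne_zero hN⟩
    have hcop : p.Coprime N := (Nat.Prime.coprime_iff_not_dvd hp.out).mpr h1
    have htot : ¬ p ∣ (p * N).totient := by
      rw [Nat.totient_mul hcop, Nat.totient_prime hp.out]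
      intro h4
      rcases (Nat.Prime.dvd_mul hp.out).mp h4 with h5 | h5
      · have := Nat.le_of_dvd (by omega) h5
        omega
      · exact h2 h5
    have hL3 : 3 ≤ p * N := h3.trans (Nat.le_mul_of_pos_right _ (Nat.pos_of_ne_zero hN))
    have h4 : 2 * oddCount p (p * N) = Nat.totient (p * N) := Pool.Agent.U332.GX.card_odd p hL3 htot
    refine ⟨h4, ?_⟩
    have h5 := Pool.Agent.U332.GX.total p hN h1 h2 h3
      (hP p N hPp (Nat.one_le_iff_ne_zero.mpr hN) hNη)
    have h6 : (oddCount p (p * N) : ℝ) = Nat.totient (p * N) / 2 := by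
      have : (2 : ℝ) * oddCount p (p * N) = Nat.totient (p * N) := by exact_mod_cast h4
      linarith
    have h7 : goodCount p (p * N) = ((Pool.Agent.U332.GX.oddSet p (p * N)).filter
        fun ψ => Pool.Agent.U332.GX.Good p ψ).card := by
      unfold goodCount Pool.Agent.U332.GX.oddSet
      rw [filter_filter]
      rfl
    rw [h7, h6]
    refine le_trans (le_of_eq ?_) h5
    ring

end Pool.Agent.Results.MP_c2a07f_nt.OrbitValues
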