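import Mathlib
import Pool.Agent.U332.LK.B
import Pool.Agent.U332.LK.C
import Pool.Agent.U332.LK.Fin

/-! # Unit values of `p`-adic `L`-functions in all components `ω^k`, `2 ≤ k ≤ p - 1`

For a prime `q` with `p ∤ q (q - 1)` the characters `χ` modulo `q` with values in an algebraic closure
of `ℚ_p` have values in the ring `W` of Witt vectors of an algebraic closure of `𝔽_p`. If
`L_p(1 - k, θ) = - (1 - χ(p) p^(k-1)) B_{k,χ} / k`, `θ = ω^k χ`, is a unit then `θ` is even, the
`p`-adic `L`-function of `θ` is a unit of the Iwasawa algebra and `X_θ = 0` (`N = q`).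

Proof. Over the residue field the number of the `χ` with `p ∤ B_{k,χ}` is, up to one, at least the
rank of the matrix `(F(a b mod q))`, `1 ≤ a, b < q`, where `F(x) = q^k (B_k(x/q) - B_k)`. Its `k`-th
differences in the rows `b - k, …, b` are `k! a^k - k q (a b mod q)^(k-1)` if `a` has a jump at `b`
(an integer in `(a (b-1) / q, a b / q]`) and no other jump in `(b - k, b]`, and `k! a^k` if `a` has no
jump in this window. A Farey lemma with a window (helper618) gives a triangular part, and its size is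
counted near the fractions with small denominators (helper439). -/

namespace Pool.Agent.Results.MP_c2a07f_nt.UnitValuesAllComponents

open Finset

/-- The Witt vectors of an algebraic closure of `𝔽_p`. -/
abbrev W (p : ℕ) [Fact p.Prime] : Type := WittVector p (AlgebraicClosure (ZMod p))

/-- The fraction field of `W`. -/
abbrev K (p : ℕ) [Fact p.Prime] : Type := FractionRing (W p)

/-- The generalized Bernoulli number `B_{k,χ} = q^(k-1) ∑_{0 ≤ a < q} χ(a) B_k(a/q)` of a nontrivial
character modulo a prime `q`; `B_k` is the Bernoulli polynomial. -/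
noncomputable def genBernoulli {p : ℕ} [Fact p.Prime] (k : ℕ) {q : ℕ}
    (χ : DirichletCharacter (W p) q) : K p :=
  (q : K p) ^ (k - 1) * ∑ a ∈ range q, algebraMap (W p) (K p) (χ (a : ZMod q)) *
    (((Polynomial.bernoulli k).eval ((a : ℚ) / q) : ℚ) : K p)

/-- The value `L_p(1 - k, ω^k χ) = - (1 - χ(p) p^(k-1)) B_{k,χ} / k`. -/
noncomputable def lValue {p : ℕ} [Fact p.Prime] (k : ℕ) {q : ℕ}
    (χ : DirichletCharacter (W p) q) : K p :=
  -((1 - algebraMap (W p) (K p) (χ ((p : ℕ) : ZMod q)) * (p : K p) ^ (k - 1)) *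
    genBernoulli k χ / k)

/-- This value is a unit of `W`. -/
def UnitLValue {p : ℕ} [Fact p.Prime] (k : ℕ) {q : ℕ} (χ : DirichletCharacter (W p) q) : Prop :=
  ∃ u : (W p)ˣ, lValue k χ = algebraMap (W p) (K p) u

open Classical in
/-- The number of the characters `χ ≠ 1` modulo `q` with values in `W` such that `L_p(1 - k, ω^k χ)`
is a unit. -/
noncomputable def goodCount (p : ℕ) [Fact p.Prime] (k q : ℕ) : ℕ :=
  (univ.filter fun χ : DirichletCharacter (W p) q => χ ≠ 1 ∧ UnitLValue k χ).card

/-- For every odd prime `p` and `ε > 0`, for all large primes `q` with `p ∤ q - 1` and all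
`2 ≤ k ≤ p - 1`, at least `q^(2/3 - ε)` characters `χ ≠ 1` modulo `q` have a unit
`L_p(1 - k, ω^k χ)`. -/
theorem result : ∀ (p : ℕ) [Fact p.Prime], p ≠ 2 → ∀ ε : ℝ, 0 < ε →
    ∃ Q : ℕ, ∀ q : ℕ, q.Prime → Q ≤ q → ¬ p ∣ q - 1 → ∀ k : ℕ, 2 ≤ k → k ≤ p - 1 →
      (q : ℝ) ^ (2 / 3 - ε) ≤ (goodCount p k q : ℝ) := by
  intro p hp hp2 ε hε
  exact Pool.Agent.U332.LK.main p Pool.Agent.U332.LK.B.proof Pool.Agent.U332.LK.C.proof hp2 ε hε

end Pool.Agent.Results.MP_c2a07f_nt.UnitValuesAllComponents
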